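import Mathlib
import Pool.Agent.Helper42.MD.Final

set_option autoImplicit false

namespace Pool.Agent.Results.MP_4d33fe_pr.SquareLowerBound

open MeasureTheory Filter Topology Pool.Agent.Helper42.MD

/-- one value of `n` -/
private theorem one (n : ℕ) (r : ℝ) (h1 : 1 ≤ r) (h2 : 4 * r ≤ Real.sqrt n) (hn : 3 ≤ n)
    (hn2 : 288 * 5929 ≤ (n : ℝ) ^ (1 / 3 : ℝ)) :
    law n {X | ¬ ((n : ℝ) ^ (1 / 3 : ℝ) * r ^ (2 / 3 : ℝ) / (10 ^ 7 * Real.log n) ≤
      metricDim (geo r X))} ≤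
    ENNReal.ofReal (1 / n + (144 * 5929 / (n : ℝ) ^ (1 / 3 : ℝ) + 1 / (n : ℝ) ^ (1 / 3 : ℝ))) := by
  have hn0 : (0 : ℝ) < n := by exact_mod_cast (by omega : 0 < n)
  have hn3 : (3 : ℝ) ≤ n := by exact_mod_cast hn
  have hr0 : 0 < r := by linarith
  have hsq : Real.sqrt n * Real.sqrt n = n := Real.mul_self_sqrt hn0.le
  have hs0 : 0 < Real.sqrt n := Real.sqrt_pos.mpr hn0
  have hs1 : 1 ≤ Real.sqrt n := by linarith
  have hrn : r / n ≤ 1 := by
    rw [div_le_one hn0]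
    nlinarith
  have hrn0 : 0 < r / n := div_pos hr0 hn0
  set t : ℝ := (r / n) ^ (1 / 3 : ℝ) with ht
  have ht0 : 0 < t := Real.rpow_pos_of_pos hrn0 _
  have ht1 : t ≤ 1 := Real.rpow_le_one hrn0.le hrn (by norm_num)
  have ht3 : t ^ 3 = r / n := by
    rw [ht, ← Real.rpow_natCast, ← Real.rpow_mul hrn0.le]
    norm_num
  have ht2 : t ^ 2 = (r / n) ^ (2 / 3 : ℝ) := by
    rw [ht, ← Real.rpow_natCast, ← Real.rpow_mul hrn0.le]
    norm_num
  have hnt : n * t ^ 2 = (n : ℝ) ^ (1 / 3 : ℝ) * r ^ (2 / 3 : ℝ) := by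
    rw [ht2, Real.div_rpow hr0.le hn0.le]
    have : (n : ℝ) = (n : ℝ) ^ (1 / 3 : ℝ) * (n : ℝ) ^ (2 / 3 : ℝ) := by
      rw [← Real.rpow_add hn0]
      norm_num
    have hp : (n : ℝ) ^ (2 / 3 : ℝ) ≠ 0 := (Real.rpow_pos_of_pos hn0 _).ne'
    rw [mul_div_assoc']
    rw [div_eq_iff hp]
    nth_rewrite 1 [this]
    ring
  have ht2' : t ^ 2 ≤ 1 / (n : ℝ) ^ (1 / 3 : ℝ) := by
    rw [ht2]
    have hle : r / n ≤ 1 / Real.sqrt n := by
      rw [div_le_div_iff₀ hn0 hs0]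
      nlinarith
    calc (r / n) ^ (2 / 3 : ℝ) ≤ (1 / Real.sqrt n) ^ (2 / 3 : ℝ) :=
          Real.rpow_le_rpow hrn0.le hle (by norm_num)
      _ = 1 / (n : ℝ) ^ (1 / 3 : ℝ) := by
          rw [Real.div_rpow zero_le_one hs0.le, Real.one_rpow, Real.sqrt_eq_rpow,
            ← Real.rpow_mul hn0.le]
          norm_num
  set ε : ℝ := t / 77 with hεd
  have hε0 : 0 < ε := by positivity
  have hε1 : ε ≤ 1 / 77 := by rw [hεd]; linarith
  have hrr : 1 ≤ r ^ (2 / 3 : ℝ) := Real.one_le_rpow h1 (by norm_num)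
  have hnn : 0 < (n : ℝ) ^ (1 / 3 : ℝ) := Real.rpow_pos_of_pos hn0 _
  set a : ℝ := (n : ℝ) ^ (1 / 3 : ℝ) * r ^ (2 / 3 : ℝ) with ha
  have hana : (n : ℝ) ^ (1 / 3 : ℝ) ≤ a := by
    rw [ha]
    exact le_mul_of_one_le_right hnn.le hrr
  have hne : n * ε ^ 2 = a / 5929 := by
    rw [hεd, ← hnt]
    ring
  have hlog : 1 ≤ Real.log n := by
    rw [Real.le_log_iff_exp_le hn0]
    exact (Real.exp_one_lt_d9.le.trans (by norm_num)).trans hn3
  set K := ⌈2 * Real.log n⌉₊ with hKd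
  set M := ⌊a / 5929 / 144⌋₊ with hMd
  have hK1 : (K : ℝ) ≤ 3 * Real.log n := by
    have := (Nat.ceil_lt_add_one (by positivity : 0 ≤ 2 * Real.log n)).le
    linarith
  have hK0 : 2 * Real.log n ≤ (K : ℝ) := Nat.le_ceil _
  have hM1 : (M : ℝ) ≤ n * ε ^ 2 / 144 := by
    rw [hne]
    exact Nat.floor_le (by positivity)
  have hM2 : a / 5929 / 288 ≤ (M : ℝ) := by
    have := (Nat.lt_floor_add_one (a / 5929 / 144)).le
    have h288 : 1 ≤ a / 5929 / 288 := by
      rw [le_div_iff₀ (by norm_num), le_div_iff₀ (by norm_num)]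
      linarith
    have e : a / 5929 / 144 = a / 5929 / 288 + a / 5929 / 288 := by ring
    linarith
  have hfb := finite_bound n K M r ε (by omega) hε0 (by linarith) (by linarith) h2 hM1 (by
    have e : (n : ℝ) ^ 2 * (147968 * ε ^ 3 / (r * n)) = 147968 / 456533 := by
      have : ε ^ 3 = r / n / 456533 := by rw [hεd, div_pow, ht3]; norm_num
      rw [this]
      field_simp
    rw [e]
    norm_num)
  have hsub : {X : Fin n → Pl | ¬ (a / (10 ^ 7 * Real.log n) ≤ metricDim (geo r X))} ⊆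
      {X | ¬ (M ≤ K * metricDim (geo r X))} := by
    intro X hX hcon
    apply hX
    have hc : (M : ℝ) ≤ K * metricDim (geo r X) := by exact_mod_cast hcon
    have hd0 : (0 : ℝ) ≤ metricDim (geo r X) := Nat.cast_nonneg _
    have h3 : a / 5929 / 288 ≤ 3 * Real.log n * metricDim (geo r X) :=
      (hM2.trans hc).trans (mul_le_mul_of_nonneg_right hK1 hd0)
    rw [div_le_iff₀ (by positivity)]
    have h4 : 0 ≤ Real.log n * metricDim (geo r X) := by positivity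
    nlinarith
  refine (measure_mono hsub).trans (hfb.trans (ENNReal.ofReal_le_ofReal ?_))
  have hK3 : (n : ℝ) * (1 / 3) ^ K ≤ 1 / n := by
    have hpow : (1 / 3 : ℝ) ^ K ≤ 1 / (n : ℝ) ^ 2 := by
      have h5 : (n : ℝ) ^ 2 ≤ 3 ^ K := by
        calc (n : ℝ) ^ 2 = Real.exp (2 * Real.log n) := by
              rw [mul_comm, Real.exp_mul, Real.exp_log hn0]
              norm_num
          _ ≤ Real.exp K := Real.exp_le_exp.mpr hK0
          _ = Real.exp 1 ^ K := by rw [← Real.exp_nat_mul, mul_one]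
          _ ≤ 3 ^ K := pow_le_pow_left₀ (Real.exp_pos 1).le
              (Real.exp_one_lt_d9.le.trans (by norm_num)) K
      rw [one_div_pow]
      exact one_div_le_one_div_of_le (by positivity) h5
    calc (n : ℝ) * (1 / 3) ^ K ≤ n * (1 / (n : ℝ) ^ 2) := mul_le_mul_of_nonneg_left hpow hn0.le
      _ = 1 / n := by field_simp
  have hε2 : ε ^ 2 ≤ 1 / (n : ℝ) ^ (1 / 3 : ℝ) := by
    have : ε ^ 2 ≤ t ^ 2 := by
      apply pow_le_pow_left₀ hε0.le
      rw [hεd]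
      linarith
    exact this.trans ht2'
  have h144 : 144 / (n * ε ^ 2) ≤ 144 * 5929 / (n : ℝ) ^ (1 / 3 : ℝ) := by
    rw [hne, div_div_eq_mul_div]
    apply div_le_div_of_nonneg_left (by norm_num) hnn hana
  linarith

/-- There is an explicit constant such that for every radius `1 ≤ r ≤ √n / 4` the metric dimension of the
random geometric graph in the square `[0, √n]²` is at least `n^(1/3) * r^(2/3) / (10^7 * log n)` with
probability tending to one. -/
theorem result (r : ℕ → ℝ) (hr : ∀ᶠ n : ℕ in atTop, 1 ≤ r n ∧ r n ≤ Real.sqrt n / 4) :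
    Tendsto (fun n : ℕ => law n {X | (n : ℝ) ^ (1 / 3 : ℝ) * r n ^ (2 / 3 : ℝ) / (10 ^ 7 * Real.log n) ≤
      metricDim (geo (r n) X)}) atTop (𝓝 1) := by
  have hT : Tendsto (fun n : ℕ => (n : ℝ) ^ (1 / 3 : ℝ)) atTop atTop :=
    (tendsto_rpow_atTop (by norm_num)).comp tendsto_natCast_atTop_atTop
  have hδ : Tendsto (fun n : ℕ => (1 : ℝ) / n + (144 * 5929 / (n : ℝ) ^ (1 / 3 : ℝ) +
      1 / (n : ℝ) ^ (1 / 3 : ℝ))) atTop (𝓝 0) := by
    have e1 : Tendsto (fun n : ℕ => (1 : ℝ) / n) atTop (𝓝 0) := tendsto_one_div_atTop_nhds_zero_nat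
    have e2 : Tendsto (fun n : ℕ => (144 * 5929 : ℝ) / (n : ℝ) ^ (1 / 3 : ℝ)) atTop (𝓝 0) :=
      Tendsto.div_atTop tendsto_const_nhds hT
    have e3 : Tendsto (fun n : ℕ => (1 : ℝ) / (n : ℝ) ^ (1 / 3 : ℝ)) atTop (𝓝 0) :=
      Tendsto.div_atTop tendsto_const_nhds hT
    simpa using e1.add (e2.add e3)
  have hδ' : Tendsto (fun n : ℕ => 1 - ENNReal.ofReal ((1 : ℝ) / n +
      (144 * 5929 / (n : ℝ) ^ (1 / 3 : ℝ) + 1 / (n : ℝ) ^ (1 / 3 : ℝ)))) atTop (𝓝 1) := by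
    have h0 := ENNReal.tendsto_ofReal hδ
    rw [ENNReal.ofReal_zero] at h0
    have h1 := ENNReal.Tendsto.sub (tendsto_const_nhds (x := (1 : ENNReal))) h0
      (Or.inl ENNReal.one_ne_top)
    rw [tsub_zero] at h1
    exact h1
  refine tendsto_of_tendsto_of_tendsto_of_le_of_le' hδ' tendsto_const_nhds ?_ ?_
  · filter_upwards [hr, eventually_ge_atTop 3, hT.eventually_ge_atTop (288 * 5929)]
      with n hn hn3 hnT
    have h := one n (r n) hn.1 (by linarith [hn.2]) hn3 hnT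
    have : NeZero n := ⟨by omega⟩
    have : IsProbabilityMeasure (law n) := by unfold law; infer_instance
    rw [tsub_le_iff_right]
    calc (1 : ENNReal) = law n Set.univ := measure_univ.symm
      _ ≤ law n ({X | (n : ℝ) ^ (1 / 3 : ℝ) * r n ^ (2 / 3 : ℝ) / (10 ^ 7 * Real.log n) ≤
          metricDim (geo (r n) X)} ∪ {X | ¬ ((n : ℝ) ^ (1 / 3 : ℝ) * r n ^ (2 / 3 : ℝ) /
          (10 ^ 7 * Real.log n) ≤ metricDim (geo (r n) X))}) :=
          measure_mono fun X _ => em _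
      _ ≤ _ := (measure_union_le _ _).trans (add_le_add le_rfl h)
  · filter_upwards [eventually_ge_atTop 1] with n hn
    have : NeZero n := ⟨by omega⟩
    have : IsProbabilityMeasure (law n) := by unfold law; infer_instance
    exact prob_le_one

end Pool.Agent.Results.MP_4d33fe_pr.SquareLowerBound
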