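import Pool.Agent.Helper59.RGOrder

/-!
# MP_4d33fe_pr: the order of magnitude of the metric dimension for `n ^ (5 / 14) ≤ r ≤ √n / 4`
-/

set_option autoImplicit false

namespace Pool.Agent.Results.MP_4d33fe_pr.SquareOrder

open MeasureTheory Filter Topology Pool.Agent.Helper42.MD

/-- For every radius `n^(5/14) ≤ r ≤ √n / 4` the metric dimension of the random geometric graph in
the square `[0, √n]²` is equal to `n^(1/3) * r^(2/3)` up to a factor which is a power of `log n`,
with probability tending to one. -/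
theorem result (r : ℕ → ℝ)
    (hr : ∀ᶠ n : ℕ in atTop, (n : ℝ) ^ (5 / 14 : ℝ) ≤ r n ∧ r n ≤ Real.sqrt n / 4) :
    Tendsto (fun n : ℕ => law n {X |
      (n : ℝ) ^ (1 / 3 : ℝ) * r n ^ (2 / 3 : ℝ) / (10 ^ 7 * Real.log n) ≤
        metricDim (geo (r n) X) ∧
      (metricDim (geo (r n) X) : ℝ) ≤
        Real.log n ^ 72 * ((n : ℝ) ^ (1 / 3 : ℝ) * r n ^ (2 / 3 : ℝ))}) atTop (𝓝 1) :=
  Pool.Agent.Helper59.RGOrder.main r hr

end Pool.Agent.Results.MP_4d33fe_pr.SquareOrder
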