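import Pool.Agent.Helper59.RG.P.All

/-!
# MP_4d33fe_pr: upper bound for the metric dimension of the random geometric graph in the square

Together with the lower bound `SquareLowerBound` this determines the order of magnitude of the metric
dimension, up to a power of `log n`, for all radii `n ^ (5 / 14) ≤ r ≤ √n / 4`.
-/

set_option autoImplicit false

namespace Pool.Agent.Results.MP_4d33fe_pr.SquareUpperBound

open MeasureTheory Filter Topology Pool.Agent.Helper42.MD

/-- For every radius `1 ≤ r ≤ √n / 4` the metric dimension of the random geometric graph in the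
square `[0, √n]²` is at most `(log n) ^ 72 * max (n^(1/3) * r^(2/3)) (n * r^(-6/5))` with
probability tending to one. -/
theorem result (r : ℕ → ℝ) (hr : ∀ᶠ n : ℕ in atTop, 1 ≤ r n ∧ r n ≤ Real.sqrt n / 4) :
    Tendsto (fun n : ℕ => law n {X | (metricDim (geo (r n) X) : ℝ) ≤
      Real.log n ^ 72 * max ((n : ℝ) ^ (1 / 3 : ℝ) * r n ^ (2 / 3 : ℝ))
        (n * r n ^ (-(6 / 5) : ℝ))}) atTop (𝓝 1) :=
  Pool.Agent.Helper59.RG.main r hr

end Pool.Agent.Results.MP_4d33fe_pr.SquareUpperBound
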